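import Pool.Agent.Y269.EL.Base
import Pool.Agent.Y269.EL.Stm2

/-!
The next stage satisfies the axioms on the geometric data.
-/

set_option autoImplicit false

namespace Pool.Agent.Y331.EL

open Filter Topology Set
open scoped InnerProductSpace
open Pool.Agent.Y269.EL

section

variable {H : Type} [NormedAddCommGroup H] [InnerProductSpace ℂ H] [CompleteSpace H]
variable (G : Geo H) (A : Amb H) (D : Blk H)

lemma next_d_cS (m : ℕ) : (G.next A D).d (cS m) = 2 * (2 * ∑ k ∈ D.L m, G.cap k) + 1 := by
  simp only [Geo.next, rec3_cS]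

lemma next_d_c1 (m k : ℕ) : (G.next A D).d (c1 m k) = G.d k := by
  simp only [Geo.next, rec3_c1]

lemma next_d_c2 (m k : ℕ) : (G.next A D).d (c2 m k) = G.d k := by
  simp only [Geo.next, rec3_c2]

lemma next_cap_cS (m : ℕ) : (G.next A D).cap (cS m) = 2 * ∑ k ∈ D.L m, G.cap k := by
  simp only [Geo.next, rec3_cS]

lemma next_cap_c1 (m k : ℕ) : (G.next A D).cap (c1 m k) = G.cap k := by
  simp only [Geo.next, rec3_c1]

lemma next_cap_c2 (m k : ℕ) : (G.next A D).cap (c2 m k) = G.cap k := by
  simp only [Geo.next, rec3_c2]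

lemma next_dep_cS (m : ℕ) : (G.next A D).dep (cS m) = 0 := by
  simp only [Geo.next, rec3_cS]

lemma next_dep_c1 (m k : ℕ) : (G.next A D).dep (c1 m k) = G.dep k + 1 := by
  simp only [Geo.next, rec3_c1]

lemma next_dep_c2 (m k : ℕ) : (G.next A D).dep (c2 m k) = G.dep k + 1 := by
  simp only [Geo.next, rec3_c2]

lemma next_an_cS (m : ℕ) : (G.next A D).an (cS m) = {cS m} := by
  simp only [Geo.next, rec3_cS]

lemma next_an_c1 (m k : ℕ) :
    (G.next A D).an (c1 m k) = insert (cS m) ((G.an k).image (c1 m)) := by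
  simp only [Geo.next, rec3_c1]

lemma next_an_c2 (m k : ℕ) :
    (G.next A D).an (c2 m k) = insert (cS m) ((G.an k).image (c2 m)) := by
  simp only [Geo.next, rec3_c2]

lemma next_OK (hG : G.OK) : (G.next A D).OK where
  d_pos := by
    intro n
    rcases rec3_cases n with ⟨m, rfl⟩ | ⟨m, k, rfl⟩ | ⟨m, k, rfl⟩
    · rw [next_d_cS]; omega
    · rw [next_d_c1]; exact hG.d_pos k
    · rw [next_d_c2]; exact hG.d_pos k
  cap_le := by
    intro n
    rcases rec3_cases n with ⟨m, rfl⟩ | ⟨m, k, rfl⟩ | ⟨m, k, rfl⟩
    · rw [next_d_cS, next_cap_cS]; omega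
    · rw [next_d_c1, next_cap_c1]; exact hG.cap_le k
    · rw [next_d_c2, next_cap_c2]; exact hG.cap_le k
  self_mem := by
    intro n
    rcases rec3_cases n with ⟨m, rfl⟩ | ⟨m, k, rfl⟩ | ⟨m, k, rfl⟩
    · rw [next_an_cS]; exact Finset.mem_singleton_self _
    · rw [next_an_c1]
      exact Finset.mem_insert_of_mem (Finset.mem_image_of_mem _ (hG.self_mem k))
    · rw [next_an_c2]
      exact Finset.mem_insert_of_mem (Finset.mem_image_of_mem _ (hG.self_mem k))
  dep_lt := by
    intro n j hj hne
    rcases rec3_cases n with ⟨m, rfl⟩ | ⟨m, k, rfl⟩ | ⟨m, k, rfl⟩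
    · rw [next_an_cS, Finset.mem_singleton] at hj
      exact absurd hj hne
    · rw [next_an_c1, Finset.mem_insert, Finset.mem_image] at hj
      rcases hj with rfl | ⟨k', hk', rfl⟩
      · rw [next_dep_cS, next_dep_c1]; omega
      · rw [next_dep_c1, next_dep_c1]
        have h1 : k' ≠ k := fun h => hne (by rw [h])
        have h2 := hG.dep_lt k k' hk' h1
        omega
    · rw [next_an_c2, Finset.mem_insert, Finset.mem_image] at hj
      rcases hj with rfl | ⟨k', hk', rfl⟩
      · rw [next_dep_cS, next_dep_c2]; omega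
      · rw [next_dep_c2, next_dep_c2]
        have h1 : k' ≠ k := fun h => hne (by rw [h])
        have h2 := hG.dep_lt k k' hk' h1
        omega
  an_trans := by
    intro n j hj
    rcases rec3_cases n with ⟨m, rfl⟩ | ⟨m, k, rfl⟩ | ⟨m, k, rfl⟩
    · rw [next_an_cS, Finset.mem_singleton] at hj
      rw [hj]
    · rw [next_an_c1, Finset.mem_insert, Finset.mem_image] at hj
      rcases hj with rfl | ⟨k', hk', rfl⟩
      · rw [next_an_cS, next_an_c1]
        intro i hi
        rw [Finset.mem_singleton] at hi
        rw [hi]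
        exact Finset.mem_insert_self _ _
      · rw [next_an_c1, next_an_c1]
        exact Finset.insert_subset_insert _ (Finset.image_subset_image (hG.an_trans k k' hk'))
    · rw [next_an_c2, Finset.mem_insert, Finset.mem_image] at hj
      rcases hj with rfl | ⟨k', hk', rfl⟩
      · rw [next_an_cS, next_an_c2]
        intro i hi
        rw [Finset.mem_singleton] at hi
        rw [hi]
        exact Finset.mem_insert_self _ _
      · rw [next_an_c2, next_an_c2]
        exact Finset.insert_subset_insert _ (Finset.image_subset_image (hG.an_trans k k' hk'))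
  s11 := next_s11 A G D hG.s11
  s22 := next_s22 A G D hG.s22
  s12 := next_s12 A G D hG.s12
  sum_one := next_sum A G D hG.sum_one

end

/-- **The next stage satisfies the axioms.** -/
theorem geo (H : Type) [NormedAddCommGroup H] [InnerProductSpace ℂ H] [CompleteSpace H] :
    GeoStmt H := fun A G D hG _ => next_OK G A D hG

end Pool.Agent.Y331.EL
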