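import Pool.Agent.Y269.EL.Stm2

/-!
Closure properties of the function algebra `IsE` and basic facts about the sets `GM`, `sph`, `XX`
and the unitaries `Ub`.
-/

set_option autoImplicit false

namespace Pool.Agent.Y331.EL

open Filter Topology Set
open scoped InnerProductSpace
open Pool.Agent.Y269.EL

variable {H : Type} [NormedAddCommGroup H] [InnerProductSpace ℂ H] [CompleteSpace H]

/-! ### Strongly continuous bounded functions -/

section SCsec

variable {T : Type} [TopologicalSpace T] {D : Set T}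

protected lemma SC.congr {F F' : T → (H →L[ℂ] H)} (h : SC D F) (e : ∀ z ∈ D, F z = F' z) : SC D F' where
  bdd := by
    obtain ⟨C, hC⟩ := h.bdd
    exact ⟨C, fun z hz => by rw [← e z hz]; exact hC z hz⟩
  cont := fun ξ => (h.cont ξ).congr fun z hz => by simp only [e z hz]
  cont' := fun ξ => (h.cont' ξ).congr fun z hz => by simp only [e z hz]

protected lemma SC.const (x : H →L[ℂ] H) : SC D (fun _ : T => x) where
  bdd := ⟨‖x‖, fun _ _ => le_rfl⟩
  cont := fun _ => continuousOn_const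
  cont' := fun _ => continuousOn_const

protected lemma SC.add {F F' : T → (H →L[ℂ] H)} (h : SC D F) (h' : SC D F') :
    SC D (fun z => F z + F' z) where
  bdd := by
    obtain ⟨C, hC⟩ := h.bdd
    obtain ⟨C', hC'⟩ := h'.bdd
    exact ⟨C + C', fun z hz => (norm_add_le _ _).trans (add_le_add (hC z hz) (hC' z hz))⟩
  cont := fun ξ => ((h.cont ξ).add (h'.cont ξ)).congr fun z _ => by simp
  cont' := fun ξ => ((h.cont' ξ).add (h'.cont' ξ)).congr fun z _ => by simp

protected lemma SC.star {F : T → (H →L[ℂ] H)} (h : SC D F) : SC D (fun z => star (F z)) where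
  bdd := by
    obtain ⟨C, hC⟩ := h.bdd
    exact ⟨C, fun z hz => by rw [norm_star]; exact hC z hz⟩
  cont := fun ξ => h.cont' ξ
  cont' := fun ξ => (h.cont ξ).congr fun z _ => by simp only [star_star]

/-- Applying a bounded strongly continuous function to a continuous vector. -/
lemma contOn_apply {F : T → (H →L[ℂ] H)} {C : ℝ} (hC : ∀ z ∈ D, ‖F z‖ ≤ C)
    (hF : ∀ ξ : H, ContinuousOn (fun z => F z ξ) D) {x : T → H} (hx : ContinuousOn x D) :
    ContinuousOn (fun z => F z (x z)) D := by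
  intro z0 hz0
  have h1 : Tendsto (fun z => F z (x z) - F z (x z0)) (𝓝[D] z0) (𝓝 0) := by
    have h2 : Tendsto (fun z => C * ‖x z - x z0‖) (𝓝[D] z0) (𝓝 0) := by
      have h3 : Tendsto (fun z => x z - x z0) (𝓝[D] z0) (𝓝 0) := by
        have h7 : Tendsto x (𝓝[D] z0) (𝓝 (x z0)) := hx z0 hz0
        have h8 := h7.sub (tendsto_const_nhds (x := x z0))
        rwa [sub_self] at h8
      have h4 := (h3.norm).const_mul C
      simpa using h4
    refine squeeze_zero_norm' ?_ h2
    filter_upwards [self_mem_nhdsWithin] with z hz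
    rw [← map_sub]
    exact (ContinuousLinearMap.le_opNorm _ _).trans
      (mul_le_mul_of_nonneg_right (hC z hz) (norm_nonneg _))
  have h5 : Tendsto (fun z => F z (x z0)) (𝓝[D] z0) (𝓝 (F z0 (x z0))) := hF (x z0) z0 hz0
  have h6 := h1.add h5
  simp only [sub_add_cancel, zero_add] at h6
  exact h6

protected lemma SC.apply {F : T → (H →L[ℂ] H)} (h : SC D F) {x : T → H} (hx : ContinuousOn x D) :
    ContinuousOn (fun z => F z (x z)) D := by
  obtain ⟨C, hC⟩ := h.bdd
  exact contOn_apply hC h.cont hx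

protected lemma SC.mul {F F' : T → (H →L[ℂ] H)} (h : SC D F) (h' : SC D F') :
    SC D (fun z => F z * F' z) where
  bdd := by
    obtain ⟨C, hC⟩ := h.bdd
    obtain ⟨C', hC'⟩ := h'.bdd
    refine ⟨C * C', fun z hz => (norm_mul_le _ _).trans ?_⟩
    exact mul_le_mul (hC z hz) (hC' z hz) (norm_nonneg _) ((norm_nonneg _).trans (hC z hz))
  cont := fun ξ => (SC.apply h (h'.cont ξ)).congr fun z _ => by simp
  cont' := fun ξ => (SC.apply (SC.star h') (h.cont' ξ)).congr fun z _ => by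
    simp only [star_mul]
    rfl

protected lemma SC.neg {F : T → (H →L[ℂ] H)} (h : SC D F) : SC D (fun z => -F z) := by
  have := SC.mul (SC.const (D := D) (-1 : H →L[ℂ] H)) h
  exact SC.congr this fun z _ => by simp

protected lemma SC.smul (c : ℂ) {F : T → (H →L[ℂ] H)} (h : SC D F) : SC D (fun z => c • F z) := by
  have := SC.mul (SC.const (D := D) (c • (1 : H →L[ℂ] H))) h
  exact SC.congr this fun z _ => by simp

protected lemma SC.mono {D' : Set T} {F : T → (H →L[ℂ] H)} (h : SC D F) (e : D' ⊆ D) : SC D' F where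
  bdd := by
    obtain ⟨C, hC⟩ := h.bdd
    exact ⟨C, fun z hz => hC z (e hz)⟩
  cont := fun ξ => (h.cont ξ).mono e
  cont' := fun ξ => (h.cont' ξ).mono e

protected lemma SC.comp {T' : Type} [TopologicalSpace T'] {D' : Set T'} {F : T → (H →L[ℂ] H)}
    (h : SC D F) {φ : T' → T} (hφ : ContinuousOn φ D') (hm : MapsTo φ D' D) :
    SC D' (fun z => F (φ z)) where
  bdd := by
    obtain ⟨C, hC⟩ := h.bdd
    exact ⟨C, fun z hz => hC _ (hm hz)⟩
  cont := fun ξ => (h.cont ξ).comp hφ hm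
  cont' := fun ξ => (h.cont' ξ).comp hφ hm

/-- Norm continuous bounded functions are bounded and strongly continuous. -/
protected lemma SC.of_contOn {F : T → (H →L[ℂ] H)} {C : ℝ} (hC : ∀ z ∈ D, ‖F z‖ ≤ C)
    (hF : ContinuousOn F D) : SC D F where
  bdd := ⟨C, hC⟩
  cont := fun ξ => hF.clm_apply continuousOn_const
  cont' := fun ξ => (continuous_star.comp_continuousOn hF).clm_apply continuousOn_const

lemma contOn_lim {f : T → H} (h : ∀ ε : ℝ, 0 < ε → ∃ f' : T → H, ContinuousOn f' D ∧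
    ∀ z ∈ D, ‖f z - f' z‖ ≤ ε) : ContinuousOn f D := by
  refine continuousOn_of_uniform_approx_of_continuousOn ?_
  intro u hu
  obtain ⟨ε, hε, hu'⟩ := Metric.mem_uniformity_dist.1 hu
  obtain ⟨f', h1, h2⟩ := h (ε / 2) (by positivity)
  refine ⟨f', h1, fun z hz => hu' ?_⟩
  rw [dist_eq_norm]
  exact (h2 z hz).trans_lt (by linarith)

protected lemma SC.lim {F : T → (H →L[ℂ] H)} (h : ∀ ε : ℝ, 0 < ε → ∃ F' : T → (H →L[ℂ] H), SC D F' ∧
    ∀ z ∈ D, ‖F z - F' z‖ ≤ ε) : SC D F where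
  bdd := by
    obtain ⟨F', h1, h2⟩ := h 1 one_pos
    obtain ⟨C, hC⟩ := h1.bdd
    refine ⟨1 + C, fun z hz => ?_⟩
    calc ‖F z‖ = ‖(F z - F' z) + F' z‖ := by simp
      _ ≤ ‖F z - F' z‖ + ‖F' z‖ := norm_add_le _ _
      _ ≤ 1 + C := add_le_add (h2 z hz) (hC z hz)
  cont := fun ξ => by
    refine contOn_lim fun ε hε => ?_
    obtain ⟨F', h1, h2⟩ := h (ε / (‖ξ‖ + 1)) (by positivity)
    refine ⟨fun z => F' z ξ, h1.cont ξ, fun z hz => ?_⟩
    have h3 : F z ξ - F' z ξ = (F z - F' z) ξ := by simp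
    rw [h3]
    calc ‖(F z - F' z) ξ‖ ≤ ‖F z - F' z‖ * ‖ξ‖ := ContinuousLinearMap.le_opNorm _ _
      _ ≤ ε / (‖ξ‖ + 1) * (‖ξ‖ + 1) := by
        apply mul_le_mul (h2 z hz) (by linarith) (norm_nonneg _) (by positivity)
      _ = ε := by field_simp
  cont' := fun ξ => by
    refine contOn_lim fun ε hε => ?_
    obtain ⟨F', h1, h2⟩ := h (ε / (‖ξ‖ + 1)) (by positivity)
    refine ⟨fun z => (star (F' z)) ξ, h1.cont' ξ, fun z hz => ?_⟩
    have h3 : (star (F z)) ξ - (star (F' z)) ξ = (star (F z - F' z)) ξ := by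
      simp [star_sub]
    have h4 : ‖star (F z - F' z)‖ ≤ ε / (‖ξ‖ + 1) := by
      rw [norm_star]; exact h2 z hz
    rw [h3]
    calc ‖(star (F z - F' z)) ξ‖ ≤ ‖star (F z - F' z)‖ * ‖ξ‖ :=
          ContinuousLinearMap.le_opNorm _ _
      _ ≤ ε / (‖ξ‖ + 1) * (‖ξ‖ + 1) := by
        apply mul_le_mul h4 (by linarith) (norm_nonneg _) (by positivity)
      _ = ε := by field_simp

end SCsec

/-! ### Spheres and unitaries -/

lemma neg_mem_sph {n : ℕ} {s : ℕ → ℝ} (hs : s ∈ sph n) : -s ∈ sph n := by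
  refine ⟨fun i hi => ?_, ?_⟩
  · simp [hs.1 i hi]
  · rw [← hs.2]
    exact Finset.sum_congr rfl fun i _ => by simp

lemma e0_mem_sph (n : ℕ) : (Pi.single 0 1 : ℕ → ℝ) ∈ sph n := by
  refine ⟨fun i hi => ?_, ?_⟩
  · have : i ≠ 0 := by omega
    simp [this]
  · rw [Finset.sum_eq_single 0]
    · simp
    · intro i _ hi
      simp [hi]
    · intro h
      simp at h

lemma Ub_neg (A : Amb H) (n : ℕ) (s : ℕ → ℝ) : Ub A n (-s) = -Ub A n s := by
  simp [Ub, Finset.sum_neg_distrib]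

lemma Ub_star (A : Amb H) (n : ℕ) (s : ℕ → ℝ) : star (Ub A n s) = Ub A n s := by
  simp only [Ub, star_sum, star_smul, A.ga_star]
  refine Finset.sum_congr rfl fun i _ => ?_
  congr 1
  exact Complex.conj_ofReal _

lemma Ub_mul_self (A : Amb H) {n : ℕ} {s : ℕ → ℝ} (hs : s ∈ sph n) :
    Ub A n s * Ub A n s = 1 := by
  have key : ∀ i j : ℕ, A.ga i * A.ga j + A.ga j * A.ga i =
      if i = j then (2 : ℂ) • (1 : H →L[ℂ] H) else 0 := by
    intro i j
    by_cases h : i = j
    · subst h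
      rw [if_pos rfl, A.ga_sq, two_smul]
    · rw [if_neg h, A.ga_anti i j h]
      simp
  have e1 : Ub A n s * Ub A n s = ∑ i ∈ Finset.range (n + 1), ∑ j ∈ Finset.range (n + 1),
      (((s i : ℝ) : ℂ) * ((s j : ℝ) : ℂ)) • (A.ga i * A.ga j) := by
    rw [Ub, Finset.sum_mul_sum]
    refine Finset.sum_congr rfl fun i _ => Finset.sum_congr rfl fun j _ => ?_
    rw [smul_mul_smul_comm]
  have e2 : Ub A n s * Ub A n s = ∑ i ∈ Finset.range (n + 1), ∑ j ∈ Finset.range (n + 1),
      (((s i : ℝ) : ℂ) * ((s j : ℝ) : ℂ)) • (A.ga j * A.ga i) := by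
    rw [e1, Finset.sum_comm]
    refine Finset.sum_congr rfl fun i _ => Finset.sum_congr rfl fun j _ => ?_
    rw [mul_comm]
  have e3 : Ub A n s * Ub A n s + Ub A n s * Ub A n s = (2 : ℂ) • (1 : H →L[ℂ] H) := by
    nth_rewrite 1 [e1]
    rw [e2, ← Finset.sum_add_distrib]
    have : ∀ i ∈ Finset.range (n + 1), (∑ j ∈ Finset.range (n + 1),
        (((s i : ℝ) : ℂ) * ((s j : ℝ) : ℂ)) • (A.ga i * A.ga j) +
        ∑ j ∈ Finset.range (n + 1),
        (((s i : ℝ) : ℂ) * ((s j : ℝ) : ℂ)) • (A.ga j * A.ga i)) =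
        (((s i ^ 2 : ℝ) : ℂ) * 2) • (1 : H →L[ℂ] H) := by
      intro i hi
      rw [← Finset.sum_add_distrib]
      rw [Finset.sum_eq_single i]
      · rw [← smul_add, key, if_pos rfl, smul_smul]
        push_cast
        ring_nf
      · intro j _ hj
        rw [← smul_add, key, if_neg (Ne.symm hj), smul_zero]
      · intro h
        exact absurd hi h
    rw [Finset.sum_congr rfl this, ← Finset.sum_smul, ← Finset.sum_mul, ← Complex.ofReal_sum,
      hs.2]
    simp
  have e4 : (2 : ℂ) • (Ub A n s * Ub A n s) = (2 : ℂ) • (1 : H →L[ℂ] H) := by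
    rw [two_smul ℂ (Ub A n s * Ub A n s)]
    exact e3
  exact smul_right_injective _ (two_ne_zero) e4

lemma Ub_mem (A : Amb H) {n : ℕ} {s : ℕ → ℝ} (hs : s ∈ sph n) : Ub A n s ∈ GM A :=
  Submonoid.subset_closure ⟨n, s, hs, rfl⟩

lemma Ub_continuous (A : Amb H) (n : ℕ) : Continuous (Ub A n) := by
  unfold Ub
  refine continuous_finsetSum _ fun i _ => ?_
  exact (Complex.continuous_ofReal.comp (continuous_apply i)).smul continuous_const

lemma neg_one_mem (A : Amb H) : (-1 : H →L[ℂ] H) ∈ GM A := by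
  have h0 := e0_mem_sph 0
  have h : Ub A 0 (Pi.single 0 1) * Ub A 0 (-(Pi.single 0 1)) = -1 := by
    rw [Ub_neg, mul_neg, Ub_mul_self A h0]
  rw [← h]
  exact (GM A).mul_mem (Ub_mem A h0) (Ub_mem A (neg_mem_sph h0))

lemma neg_mem_GM (A : Amb H) {g : H →L[ℂ] H} (hg : g ∈ GM A) : -g ∈ GM A := by
  have := (GM A).mul_mem (neg_one_mem A) hg
  simpa using this

lemma R_Ub (A : Amb H) (n m : ℕ) (s : ℕ → ℝ) : A.R m * Ub A n s = Ub A n s * A.R m := by
  rw [Ub, Finset.mul_sum, Finset.sum_mul]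
  refine Finset.sum_congr rfl fun i _ => ?_
  rw [mul_smul_comm, smul_mul_assoc, A.R_ga]

lemma GM_props (A : Amb H) {g : H →L[ℂ] H} (hg : g ∈ GM A) :
    star g * g = 1 ∧ g * star g = 1 ∧ (∀ m, A.R m * g = g * A.R m) ∧
      ∀ m, star (A.R m) * g = g * star (A.R m) := by
  induction hg using Submonoid.closure_induction with
  | mem x hx =>
    obtain ⟨n, s, hs, rfl⟩ := hx
    refine ⟨?_, ?_, fun m => R_Ub A n m s, fun m => ?_⟩
    · rw [Ub_star, Ub_mul_self A hs]
    · rw [Ub_star, Ub_mul_self A hs]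
    · have := congrArg star (R_Ub A n m s)
      rw [star_mul, star_mul, Ub_star] at this
      exact this.symm
  | one => simp
  | mul x y _ _ hx hy =>
    obtain ⟨a1, a2, a3, a4⟩ := hx
    obtain ⟨b1, b2, b3, b4⟩ := hy
    refine ⟨?_, ?_, fun m => ?_, fun m => ?_⟩
    · calc star (x * y) * (x * y) = star y * (star x * x) * y := by
            rw [star_mul]; simp only [mul_assoc]
        _ = 1 := by rw [a1, mul_one, b1]
    · calc (x * y) * star (x * y) = x * (y * star y) * star x := by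
            rw [star_mul]; simp only [mul_assoc]
        _ = 1 := by rw [b2, mul_one, a2]
    · rw [← mul_assoc, a3, mul_assoc, b3, ← mul_assoc]
    · rw [← mul_assoc, a4, mul_assoc, b4, ← mul_assoc]

lemma GM_star_mul {A : Amb H} {g : H →L[ℂ] H} (hg : g ∈ GM A) : star g * g = 1 :=
  (GM_props A hg).1

lemma GM_mul_star {A : Amb H} {g : H →L[ℂ] H} (hg : g ∈ GM A) : g * star g = 1 :=
  (GM_props A hg).2.1

lemma GM_norm_le {A : Amb H} {g : H →L[ℂ] H} (hg : g ∈ GM A) : ‖g‖ ≤ 1 := by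
  refine ContinuousLinearMap.opNorm_le_bound _ zero_le_one fun x => ?_
  have h1 : ‖g x‖ ^ 2 = ‖x‖ ^ 2 := by
    have h2 : ⟪g x, g x⟫_ℂ = ⟪x, x⟫_ℂ := by
      rw [← ContinuousLinearMap.adjoint_inner_right, ← ContinuousLinearMap.star_eq_adjoint]
      have h3 : (star g) (g x) = x := by
        have := congrArg (fun T : H →L[ℂ] H => T x) (GM_star_mul hg)
        simpa using this
      rw [h3]
    rw [inner_self_eq_norm_sq_to_K, inner_self_eq_norm_sq_to_K] at h2
    exact_mod_cast h2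
  have h4 : ‖g x‖ = ‖x‖ := by
    have := abs_eq_abs.2 (sq_eq_sq_iff_eq_or_eq_neg.1 h1)
    rwa [abs_norm, abs_norm] at this
  rw [h4, one_mul]

lemma gm (A : Amb H) : ∀ g ∈ GM A, star g * g = 1 ∧ g * star g = 1 ∧ -g ∈ GM A ∧
    (∀ m, A.R m * g = g * A.R m) ∧ ∀ m, star (A.R m) * g = g * star (A.R m) := fun g hg =>
  ⟨(GM_props A hg).1, (GM_props A hg).2.1, neg_mem_GM A hg, (GM_props A hg).2.2.1,
    (GM_props A hg).2.2.2⟩

lemma ub (A : Amb H) (n : ℕ) : ∀ s ∈ sph n, Ub A n s ∈ GM A ∧ star (Ub A n s) = Ub A n s ∧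
    Ub A n s * Ub A n s = 1 ∧ -s ∈ sph n ∧ Ub A n (-s) = -Ub A n s := fun s hs =>
  ⟨Ub_mem A hs, Ub_star A n s, Ub_mul_self A hs, neg_mem_sph hs, Ub_neg A n s⟩

lemma flp_mem {d : ℕ → ℕ} {w : Pt} (hw : w ∈ XX d) (k : ℕ) : flp k w ∈ XX d := by
  intro j
  by_cases h : j = k
  · subst h
    have : flp j w j = -(w j) := by simp [flp]
    rw [this]
    exact neg_mem_sph (hw j)
  · have : flp k w j = w j := by simp [flp, h]
    rw [this]
    exact hw j

lemma sph_compact (n : ℕ) : IsCompact (sph n) := by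
  have h1 : IsCompact (Set.pi Set.univ (fun _ : ℕ => Icc (-1 : ℝ) 1)) :=
    isCompact_univ_pi fun _ => isCompact_Icc
  refine h1.of_isClosed_subset ?_ ?_
  · have h2 : sph n = (⋂ i, {s : ℕ → ℝ | n < i → s i = 0}) ∩
        {s | ∑ i ∈ Finset.range (n + 1), s i ^ 2 = 1} := by
      ext s
      simp [sph]
    rw [h2]
    refine IsClosed.inter (isClosed_iInter fun i => ?_) ?_
    · by_cases hi : n < i
      · have : {s : ℕ → ℝ | n < i → s i = 0} = {s : ℕ → ℝ | s i = 0} := by
          ext s; simp [hi]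
        rw [this]
        exact isClosed_eq (continuous_apply i) continuous_const
      · have : {s : ℕ → ℝ | n < i → s i = 0} = Set.univ := by
          ext s; simp [hi]
        rw [this]
        exact isClosed_univ
    · exact isClosed_eq (continuous_finsetSum _ fun i _ => (continuous_apply i).pow 2)
        continuous_const
  · intro s hs i _
    by_cases hi : n < i
    · rw [hs.1 i hi]
      constructor <;> norm_num
    · have h3 : s i ^ 2 ≤ 1 := by
        rw [← hs.2]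
        exact Finset.single_le_sum (f := fun i => s i ^ 2) (fun j _ => sq_nonneg (s j))
          (Finset.mem_range.2 (by omega))
      exact abs_le.1 ((sq_le_one_iff_abs_le_one _).1 h3)

lemma XX_compact (d : ℕ → ℕ) : IsCompact (XX d) := by
  have h : XX d = Set.pi Set.univ (fun k => sph (d k)) := by
    ext w
    simp [XX]
  rw [h]
  exact isCompact_univ_pi fun k => sph_compact (d k)

lemma XX_nonempty (d : ℕ → ℕ) : (XX d).Nonempty :=
  ⟨fun _ => Pi.single 0 1, fun k => e0_mem_sph (d k)⟩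

/-! ### The algebra of a stage -/

lemma isE_congr {A : Amb H} {G : Geo H} {F F' : ℝ → Pt → Pt → (H →L[ℂ] H) → (H →L[ℂ] H)}
    (h : IsE A G F) (e : ∀ t ∈ Icc (0 : ℝ) 1, ∀ u ∈ XX G.d,
    ∀ v ∈ XX G.d, ∀ g ∈ GM A, F t u v g = F' t u v g) : IsE A G F' where
  sc := SC.congr h.sc fun z hz => e _ hz.1 _ hz.2.1 _ hz.2.2.1 _ hz.2.2.2
  eqc := by
    intro ε hε
    obtain ⟨δ, hδ, hh⟩ := h.eqc ε hε
    refine ⟨δ, hδ, fun t ht t' ht' htt u hu v hv g hg => ?_⟩
    rw [← e t ht u hu v hv g hg, ← e t' ht' u hu v hv g hg]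
    exact hh t ht t' ht' htt u hu v hv g hg
  ev1 := by
    intro t ht u hu v hv g hg k
    rw [← e t ht u hu v hv g hg, ← e t ht _ (flp_mem hu k) v hv g hg]
    exact h.ev1 t ht u hu v hv g hg k
  ev2 := by
    intro t ht u hu v hv g hg k
    rw [← e t ht u hu v hv g hg, ← e t ht u hu _ (flp_mem hv k) g hg]
    exact h.ev2 t ht u hu v hv g hg k
  ev3 := by
    intro t ht u hu v hv g hg
    rw [← e t ht u hu v hv g hg, ← e t ht u hu v hv _ (neg_mem_GM A hg)]
    exact h.ev3 t ht u hu v hv g hg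
  bd0 := by
    intro u hu v hv g hg
    have h0 : (0 : ℝ) ∈ Icc (0 : ℝ) 1 := ⟨le_rfl, zero_le_one⟩
    rw [← e 0 h0 u hu v hv g hg, ← e 0 h0 u hu u hu 1 (one_mem _)]
    exact h.bd0 u hu v hv g hg
  bd1 := by
    intro u hu v hv g hg
    have h0 : (0 : ℝ) ∈ Icc (0 : ℝ) 1 := ⟨le_rfl, zero_le_one⟩
    have h1 : (1 : ℝ) ∈ Icc (0 : ℝ) 1 := ⟨zero_le_one, le_rfl⟩
    rw [← e 1 h1 u hu v hv g hg, ← e 0 h0 u hu u hu 1 (one_mem _),
      ← e 0 h0 v hv v hv 1 (one_mem _)]
    exact h.bd1 u hu v hv g hg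

lemma isE_scal {A : Amb H} {G : Geo H} (hG : G.OK) (c : ℂ) :
    IsE A G fun _ _ _ _ => c • (1 : H →L[ℂ] H) where
  sc := SC.const _
  eqc := fun ε hε => ⟨1, one_pos, fun t _ t' _ _ u _ v _ g _ => by simpa using hε.le⟩
  ev1 := fun _ _ _ _ _ _ _ _ _ => rfl
  ev2 := fun _ _ _ _ _ _ _ _ _ => rfl
  ev3 := fun _ _ _ _ _ _ _ _ => rfl
  bd0 := fun _ _ _ _ _ _ => rfl
  bd1 := by
    intro u hu v hv g hg
    have h1 : G.S2 * g * (c • (1 : H →L[ℂ] H)) * star g * star G.S2 =
        c • (G.S2 * (g * star g) * star G.S2) := by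
      simp only [mul_smul_comm, smul_mul_assoc, mul_one, mul_assoc]
    have h2 : G.S1 * (c • (1 : H →L[ℂ] H)) * star G.S1 = c • (G.S1 * star G.S1) := by
      simp only [mul_smul_comm, smul_mul_assoc, mul_one]
    rw [h1, h2, GM_mul_star hg, mul_one, ← smul_add, hG.sum_one]

lemma isE_add {A : Amb H} {G : Geo H} {F F' : ℝ → Pt → Pt → (H →L[ℂ] H) → (H →L[ℂ] H)}
    (h : IsE A G F) (h' : IsE A G F') : IsE A G fun t u v g => F t u v g + F' t u v g where
  sc := SC.add h.sc h'.sc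
  eqc := by
    intro ε hε
    obtain ⟨δ, hδ, hh⟩ := h.eqc (ε / 2) (by positivity)
    obtain ⟨δ', hδ', hh'⟩ := h'.eqc (ε / 2) (by positivity)
    refine ⟨min δ δ', lt_min hδ hδ', fun t ht t' ht' htt u hu v hv g hg => ?_⟩
    have e1 : F t u v g + F' t u v g - (F t' u v g + F' t' u v g) =
        (F t u v g - F t' u v g) + (F' t u v g - F' t' u v g) := by abel
    rw [e1]
    have h1 := hh t ht t' ht' (htt.trans_le (min_le_left _ _)) u hu v hv g hg
    have h2 := hh' t ht t' ht' (htt.trans_le (min_le_right _ _)) u hu v hv g hg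
    calc _ ≤ ‖F t u v g - F t' u v g‖ + ‖F' t u v g - F' t' u v g‖ := norm_add_le _ _
      _ ≤ ε := by linarith
  ev1 := fun t ht u hu v hv g hg k => by
    simp only [h.ev1 t ht u hu v hv g hg k, h'.ev1 t ht u hu v hv g hg k]
  ev2 := fun t ht u hu v hv g hg k => by
    simp only [h.ev2 t ht u hu v hv g hg k, h'.ev2 t ht u hu v hv g hg k]
  ev3 := fun t ht u hu v hv g hg => by
    simp only [h.ev3 t ht u hu v hv g hg, h'.ev3 t ht u hu v hv g hg]
  bd0 := fun u hu v hv g hg => by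
    simp only [h.bd0 u hu v hv g hg, h'.bd0 u hu v hv g hg]
  bd1 := fun u hu v hv g hg => by
    simp only [h.bd1 u hu v hv g hg, h'.bd1 u hu v hv g hg, mul_add, add_mul]
    abel

lemma isE_star {A : Amb H} {G : Geo H} {F : ℝ → Pt → Pt → (H →L[ℂ] H) → (H →L[ℂ] H)}
    (h : IsE A G F) : IsE A G fun t u v g => star (F t u v g) where
  sc := SC.star h.sc
  eqc := by
    intro ε hε
    obtain ⟨δ, hδ, hh⟩ := h.eqc ε hε
    refine ⟨δ, hδ, fun t ht t' ht' htt u hu v hv g hg => ?_⟩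
    rw [← star_sub, norm_star]
    exact hh t ht t' ht' htt u hu v hv g hg
  ev1 := fun t ht u hu v hv g hg k => by simp only [h.ev1 t ht u hu v hv g hg k]
  ev2 := fun t ht u hu v hv g hg k => by simp only [h.ev2 t ht u hu v hv g hg k]
  ev3 := fun t ht u hu v hv g hg => by simp only [h.ev3 t ht u hu v hv g hg]
  bd0 := fun u hu v hv g hg => by simp only [h.bd0 u hu v hv g hg]
  bd1 := fun u hu v hv g hg => by
    simp only [h.bd1 u hu v hv g hg, star_add, star_mul, star_star, mul_assoc]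

lemma S21 {G : Geo H} (hG : G.OK) : star G.S2 * G.S1 = 0 := by
  have := congrArg star hG.s12
  rwa [star_mul, star_star, star_zero] at this

/-- The product of two operators of the form `S1 a S1* + S2 g b g* S2*`. -/
lemma bd_mul {G : Geo H} (hG : G.OK) {g : H →L[ℂ] H} (hg : star g * g = 1)
    (a b a' b' : H →L[ℂ] H) :
    (G.S1 * a * star G.S1 + G.S2 * g * b * star g * star G.S2) *
      (G.S1 * a' * star G.S1 + G.S2 * g * b' * star g * star G.S2) =
    G.S1 * (a * a') * star G.S1 + G.S2 * g * (b * b') * star g * star G.S2 := by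
  have h11 : G.S1 * a * star G.S1 * (G.S1 * a' * star G.S1) =
      G.S1 * (a * a') * star G.S1 := by
    calc G.S1 * a * star G.S1 * (G.S1 * a' * star G.S1) =
        G.S1 * a * (star G.S1 * G.S1) * a' * star G.S1 := by simp only [mul_assoc]
      _ = _ := by rw [hG.s11, mul_one]; simp only [mul_assoc]
  have h12 : G.S1 * a * star G.S1 * (G.S2 * g * b' * star g * star G.S2) = 0 := by
    calc G.S1 * a * star G.S1 * (G.S2 * g * b' * star g * star G.S2) =
        G.S1 * a * (star G.S1 * G.S2) * (g * b' * star g * star G.S2) := by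
          simp only [mul_assoc]
      _ = 0 := by rw [hG.s12, mul_zero, zero_mul]
  have h21 : G.S2 * g * b * star g * star G.S2 * (G.S1 * a' * star G.S1) = 0 := by
    calc G.S2 * g * b * star g * star G.S2 * (G.S1 * a' * star G.S1) =
        G.S2 * g * b * star g * (star G.S2 * G.S1) * (a' * star G.S1) := by
          simp only [mul_assoc]
      _ = 0 := by rw [S21 hG, mul_zero, zero_mul]
  have h22 : G.S2 * g * b * star g * star G.S2 * (G.S2 * g * b' * star g * star G.S2) =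
      G.S2 * g * (b * b') * star g * star G.S2 := by
    calc G.S2 * g * b * star g * star G.S2 * (G.S2 * g * b' * star g * star G.S2) =
        G.S2 * g * b * star g * (star G.S2 * G.S2) * g * b' * star g * star G.S2 := by
          simp only [mul_assoc]
      _ = G.S2 * g * b * (star g * g) * b' * star g * star G.S2 := by
          rw [hG.s22, mul_one]; simp only [mul_assoc]
      _ = _ := by rw [hg, mul_one]; simp only [mul_assoc]
  rw [add_mul, mul_add, mul_add, h11, h12, h21, h22, add_zero, zero_add]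

lemma isE_mul {A : Amb H} {G : Geo H} (hG : G.OK)
    {F F' : ℝ → Pt → Pt → (H →L[ℂ] H) → (H →L[ℂ] H)}
    (h : IsE A G F) (h' : IsE A G F') : IsE A G fun t u v g => F t u v g * F' t u v g where
  sc := SC.mul h.sc h'.sc
  eqc := by
    intro ε hε
    obtain ⟨C, hC⟩ := h.sc.bdd
    obtain ⟨C', hC'⟩ := h'.sc.bdd
    have p1 : 0 < |C| + 1 := by positivity
    have p2 : 0 < |C'| + 1 := by positivity
    obtain ⟨δ, hδ, hh⟩ := h.eqc (ε / 2 / (|C'| + 1)) (by positivity)
    obtain ⟨δ', hδ', hh'⟩ := h'.eqc (ε / 2 / (|C| + 1)) (by positivity)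
    refine ⟨min δ δ', lt_min hδ hδ', fun t ht t' ht' htt u hu v hv g hg => ?_⟩
    have e1 : F t u v g * F' t u v g - F t' u v g * F' t' u v g =
        (F t u v g - F t' u v g) * F' t u v g + F t' u v g * (F' t u v g - F' t' u v g) := by
      rw [sub_mul, mul_sub]; abel
    rw [e1]
    have h1 := hh t ht t' ht' (htt.trans_le (min_le_left _ _)) u hu v hv g hg
    have h2 := hh' t ht t' ht' (htt.trans_le (min_le_right _ _)) u hu v hv g hg
    have h3 : ‖F t' u v g‖ ≤ |C| + 1 :=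
      (hC (t', u, v, g) ⟨ht', hu, hv, hg⟩).trans ((le_abs_self C).trans (by linarith))
    have h4 : ‖F' t u v g‖ ≤ |C'| + 1 :=
      (hC' (t, u, v, g) ⟨ht, hu, hv, hg⟩).trans ((le_abs_self C').trans (by linarith))
    calc _ ≤ ‖(F t u v g - F t' u v g) * F' t u v g‖ +
          ‖F t' u v g * (F' t u v g - F' t' u v g)‖ := norm_add_le _ _
      _ ≤ ‖F t u v g - F t' u v g‖ * ‖F' t u v g‖ +
          ‖F t' u v g‖ * ‖F' t u v g - F' t' u v g‖ :=
        add_le_add (norm_mul_le _ _) (norm_mul_le _ _)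
      _ ≤ (ε / 2 / (|C'| + 1)) * (|C'| + 1) + (|C| + 1) * (ε / 2 / (|C| + 1)) := by
        apply add_le_add
        · exact mul_le_mul h1 h4 (norm_nonneg _) (by positivity)
        · exact mul_le_mul h3 h2 (norm_nonneg _) (by positivity)
      _ = ε := by field_simp; ring
  ev1 := fun t ht u hu v hv g hg k => by
    simp only [h.ev1 t ht u hu v hv g hg k, h'.ev1 t ht u hu v hv g hg k]
  ev2 := fun t ht u hu v hv g hg k => by
    simp only [h.ev2 t ht u hu v hv g hg k, h'.ev2 t ht u hu v hv g hg k]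
  ev3 := fun t ht u hu v hv g hg => by
    simp only [h.ev3 t ht u hu v hv g hg, h'.ev3 t ht u hu v hv g hg]
  bd0 := fun u hu v hv g hg => by
    simp only [h.bd0 u hu v hv g hg, h'.bd0 u hu v hv g hg]
  bd1 := fun u hu v hv g hg => by
    simp only [h.bd1 u hu v hv g hg, h'.bd1 u hu v hv g hg]
    exact bd_mul hG (GM_star_mul hg) _ _ _ _

/-- Two operators with arbitrarily small distance are equal. -/
lemma eq_of_norm_le {x y : H →L[ℂ] H} (C : ℝ) (h : ∀ ε : ℝ, 0 < ε → ‖x - y‖ ≤ C * ε) :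
    x = y := by
  rw [← sub_eq_zero, ← norm_le_zero_iff]
  refine le_of_forall_pos_le_add fun ε hε => ?_
  have h1 := h (ε / (|C| + 1)) (by positivity)
  have h2 : C * (ε / (|C| + 1)) ≤ ε := by
    calc C * (ε / (|C| + 1)) ≤ (|C| + 1) * (ε / (|C| + 1)) := by
          apply mul_le_mul_of_nonneg_right _ (by positivity)
          exact (le_abs_self C).trans (by linarith)
      _ = ε := by field_simp
  linarith

lemma isE_lim {A : Amb H} {G : Geo H} {F : ℝ → Pt → Pt → (H →L[ℂ] H) → (H →L[ℂ] H)}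
    (h : ∀ ε : ℝ, 0 < ε → ∃ F', IsE A G F' ∧
    ∀ t ∈ Icc (0 : ℝ) 1, ∀ u ∈ XX G.d, ∀ v ∈ XX G.d, ∀ g ∈ GM A,
      ‖F t u v g - F' t u v g‖ ≤ ε) : IsE A G F where
  sc := by
    refine SC.lim fun ε hε => ?_
    obtain ⟨F', h1, h2⟩ := h ε hε
    exact ⟨_, h1.sc, fun z hz => h2 _ hz.1 _ hz.2.1 _ hz.2.2.1 _ hz.2.2.2⟩
  eqc := by
    intro ε hε
    obtain ⟨F', h1, h2⟩ := h (ε / 3) (by positivity)
    obtain ⟨δ, hδ, hh⟩ := h1.eqc (ε / 3) (by positivity)
    refine ⟨δ, hδ, fun t ht t' ht' htt u hu v hv g hg => ?_⟩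
    have e1 : F t u v g - F t' u v g = (F t u v g - F' t u v g) +
        (F' t u v g - F' t' u v g) - (F t' u v g - F' t' u v g) := by abel
    rw [e1]
    have a1 := h2 t ht u hu v hv g hg
    have a2 := h2 t' ht' u hu v hv g hg
    have a3 := hh t ht t' ht' htt u hu v hv g hg
    have a4 := norm_sub_le ((F t u v g - F' t u v g) + (F' t u v g - F' t' u v g))
      (F t' u v g - F' t' u v g)
    have a5 := norm_add_le (F t u v g - F' t u v g) (F' t u v g - F' t' u v g)
    linarith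
  ev1 := by
    intro t ht u hu v hv g hg k
    refine eq_of_norm_le 2 fun ε hε => ?_
    obtain ⟨F', h1, h2⟩ := h ε hε
    have a1 := h2 t ht u hu v hv g hg
    have a2 := h2 t ht _ (flp_mem hu k) v hv g hg
    have a3 := h1.ev1 t ht u hu v hv g hg k
    have e1 : F t (flp k u) v g - F t u v g =
        (F t (flp k u) v g - F' t (flp k u) v g) - (F t u v g - F' t u v g) := by
      rw [a3]; abel
    rw [e1]
    have a4 := norm_sub_le (F t (flp k u) v g - F' t (flp k u) v g) (F t u v g - F' t u v g)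
    linarith
  ev2 := by
    intro t ht u hu v hv g hg k
    refine eq_of_norm_le 2 fun ε hε => ?_
    obtain ⟨F', h1, h2⟩ := h ε hε
    have a1 := h2 t ht u hu v hv g hg
    have a2 := h2 t ht u hu _ (flp_mem hv k) g hg
    have a3 := h1.ev2 t ht u hu v hv g hg k
    have e1 : F t u (flp k v) g - F t u v g =
        (F t u (flp k v) g - F' t u (flp k v) g) - (F t u v g - F' t u v g) := by
      rw [a3]; abel
    rw [e1]
    have a4 := norm_sub_le (F t u (flp k v) g - F' t u (flp k v) g) (F t u v g - F' t u v g)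
    linarith
  ev3 := by
    intro t ht u hu v hv g hg
    refine eq_of_norm_le 2 fun ε hε => ?_
    obtain ⟨F', h1, h2⟩ := h ε hε
    have a1 := h2 t ht u hu v hv g hg
    have a2 := h2 t ht u hu v hv _ (neg_mem_GM A hg)
    have a3 := h1.ev3 t ht u hu v hv g hg
    have e1 : F t u v (-g) - F t u v g =
        (F t u v (-g) - F' t u v (-g)) - (F t u v g - F' t u v g) := by
      rw [a3]; abel
    rw [e1]
    have a4 := norm_sub_le (F t u v (-g) - F' t u v (-g)) (F t u v g - F' t u v g)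
    linarith
  bd0 := by
    intro u hu v hv g hg
    have h0 : (0 : ℝ) ∈ Icc (0 : ℝ) 1 := ⟨le_rfl, zero_le_one⟩
    refine eq_of_norm_le 2 fun ε hε => ?_
    obtain ⟨F', h1, h2⟩ := h ε hε
    have a1 := h2 0 h0 u hu v hv g hg
    have a2 := h2 0 h0 u hu u hu 1 (one_mem _)
    have a3 := h1.bd0 u hu v hv g hg
    have e1 : F 0 u v g - F 0 u u 1 =
        (F 0 u v g - F' 0 u v g) - (F 0 u u 1 - F' 0 u u 1) := by
      rw [a3]; abel
    rw [e1]
    have a4 := norm_sub_le (F 0 u v g - F' 0 u v g) (F 0 u u 1 - F' 0 u u 1)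
    linarith
  bd1 := by
    intro u hu v hv g hg
    have h0 : (0 : ℝ) ∈ Icc (0 : ℝ) 1 := ⟨le_rfl, zero_le_one⟩
    have h01 : (1 : ℝ) ∈ Icc (0 : ℝ) 1 := ⟨zero_le_one, le_rfl⟩
    refine eq_of_norm_le (1 + ‖G.S1‖ * ‖star G.S1‖ +
      ‖G.S2‖ * ‖g‖ * ‖star g‖ * ‖star G.S2‖) fun ε hε => ?_
    obtain ⟨F', h1, h2⟩ := h ε hε
    have a1 := h2 1 h01 u hu v hv g hg
    have a2 := h2 0 h0 u hu u hu 1 (one_mem _)
    have a2' := h2 0 h0 v hv v hv 1 (one_mem _)
    have a3 := h1.bd1 u hu v hv g hg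
    have e1 : F 1 u v g -
        (G.S1 * F 0 u u 1 * star G.S1 + G.S2 * g * F 0 v v 1 * star g * star G.S2) =
        (F 1 u v g - F' 1 u v g) - G.S1 * (F 0 u u 1 - F' 0 u u 1) * star G.S1 -
        G.S2 * g * (F 0 v v 1 - F' 0 v v 1) * star g * star G.S2 := by
      rw [a3]
      simp only [mul_sub, sub_mul]
      abel
    rw [e1]
    have b1 : ‖G.S1 * (F 0 u u 1 - F' 0 u u 1) * star G.S1‖ ≤ ‖G.S1‖ * ε * ‖star G.S1‖ := by
      calc _ ≤ ‖G.S1 * (F 0 u u 1 - F' 0 u u 1)‖ * ‖star G.S1‖ := norm_mul_le _ _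
        _ ≤ (‖G.S1‖ * ‖F 0 u u 1 - F' 0 u u 1‖) * ‖star G.S1‖ := by
          gcongr; exact norm_mul_le _ _
        _ ≤ _ := by gcongr
    have b2 : ‖G.S2 * g * (F 0 v v 1 - F' 0 v v 1) * star g * star G.S2‖ ≤
        ‖G.S2‖ * ‖g‖ * ε * ‖star g‖ * ‖star G.S2‖ := by
      calc _ ≤ ‖G.S2 * g * (F 0 v v 1 - F' 0 v v 1) * star g‖ * ‖star G.S2‖ :=
            norm_mul_le _ _
        _ ≤ (‖G.S2 * g * (F 0 v v 1 - F' 0 v v 1)‖ * ‖star g‖) * ‖star G.S2‖ := by
          gcongr; exact norm_mul_le _ _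
        _ ≤ ((‖G.S2 * g‖ * ‖F 0 v v 1 - F' 0 v v 1‖) * ‖star g‖) * ‖star G.S2‖ := by
          gcongr; exact norm_mul_le _ _
        _ ≤ (((‖G.S2‖ * ‖g‖) * ‖F 0 v v 1 - F' 0 v v 1‖) * ‖star g‖) * ‖star G.S2‖ := by
          gcongr; exact norm_mul_le _ _
        _ ≤ _ := by gcongr
    have b3 := norm_sub_le ((F 1 u v g - F' 1 u v g) -
      G.S1 * (F 0 u u 1 - F' 0 u u 1) * star G.S1)
      (G.S2 * g * (F 0 v v 1 - F' 0 v v 1) * star g * star G.S2)
    have b4 := norm_sub_le (F 1 u v g - F' 1 u v g)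
      (G.S1 * (F 0 u u 1 - F' 0 u u 1) * star G.S1)
    calc _ ≤ ε + ‖G.S1‖ * ε * ‖star G.S1‖ + ‖G.S2‖ * ‖g‖ * ε * ‖star g‖ * ‖star G.S2‖ := by
          linarith
      _ = _ := by ring

/-- **Closure properties of the function algebra, and basic facts.** -/
theorem ise (H : Type) [NormedAddCommGroup H] [InnerProductSpace ℂ H] [CompleteSpace H] :
    IseStmt H where
  gm := fun A => gm A
  ub := fun A n => ub A n
  ubc := fun A n => Ub_continuous A n
  flp := fun _ _ hw k => flp_mem hw k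
  cpt := fun d => ⟨XX_compact d, XX_nonempty d⟩
  congr := fun _ _ _ _ h e => isE_congr h e
  scal := fun _ _ hG c => isE_scal hG c
  add := fun _ _ _ _ _ h h' => isE_add h h'
  mul := fun _ _ hG _ _ h h' => isE_mul hG h h'
  star := fun _ _ _ _ h => isE_star h
  lim := fun _ _ _ _ h => isE_lim h

end Pool.Agent.Y331.EL
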